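import Pool.Agent.TH99.AR.Main

set_option autoImplicit false

/-!
# Relations between ordinates of zeros of the zeta function

Unconditionally: a relation `γ' = f γ + g a` between ordinates, in which `f` is a bi-Lipschitz
function of the ordinate `γ` (for instance an algebraic function whose coefficients depend on
further ordinates) and `g a` is a further free term, fails, for all but few `a`, for a positive
proportion of the `γ`, even up to an error of a small multiple of the mean spacing `1 / log T`.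
The constants do not depend on `f` and `g`. The theorem `power` is the instance of the relations
`α (γ' - a) ^ k = β γ ^ k + δ`.
-/

namespace Pool.Agent.Results.MP_ec260d_nt.AlgebraicRelations

open Complex
open Pool.Agent.TH801.TU

/-- the relation of degree `k` -/
theorem power (k : ℕ) (K η : ℝ) (hk : 1 ≤ k) (hη : 0 < η) :
    ∃ c T₁ : ℝ, 0 < c ∧ ∀ T : ℝ, T₁ ≤ T → ∀ B : Finset ℝ,
      (∀ γ ∈ B, η * T ≤ γ ∧ γ ≤ K * T ∧ riemannZeta (1 / 2 + I * (γ : ℂ)) = 0) →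
      η * T * Real.log T ≤ B.card →
      ∀ α β δ : ℝ, 0 < α → α ≤ K * β → β ≤ K * α →
      (∀ γ ∈ B, α * (η * T) ^ k ≤ β * γ ^ k + δ ∧ β * γ ^ k + δ ≤ α * (K * T) ^ k) →
      ∀ (A : Finset ℝ) (w : ℝ), (∀ a ∈ A, |a| ≤ K * T) →
      (∀ y : ℝ, ({a : ℝ | a ∈ A ∧ y ≤ a ∧ a < y + 1}.ncard : ℝ) ≤ w) →
      ({a : ℝ | a ∈ A ∧ ({γ : ℝ | γ ∈ B ∧
          ∀ γ' : ℝ, a ≤ γ' → riemannZeta (1 / 2 + I * (γ' : ℂ)) = 0 →
            α * (γ' - a) ^ k ≠ β * γ ^ k + δ}.ncard : ℝ) < c * B.card}.ncard : ℝ) ≤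
        w * T ^ (499 / 500 : ℝ) := by
  classical
  obtain ⟨K0, hK0⟩ : ∃ K0 : ℝ, K0 = max K 1 := ⟨_, rfl⟩
  have hK01 : 1 ≤ K0 := by rw [hK0]; exact le_max_right _ _
  have hKK0 : K ≤ K0 := by rw [hK0]; exact le_max_left _ _
  have hK00 : 0 < K0 := by linarith
  obtain ⟨K2, hK2⟩ : ∃ K2 : ℝ, K2 = max K0 (K0 * (K0 / η) ^ (k - 1)) := ⟨_, rfl⟩
  have hK2a : K0 ≤ K2 := by rw [hK2]; exact le_max_left _ _
  have hK2b : K0 * (K0 / η) ^ (k - 1) ≤ K2 := by rw [hK2]; exact le_max_right _ _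
  obtain ⟨c, T1, hc, h⟩ := Pool.Agent.TH99.AR.exc' K2 η hη
  refine ⟨c, max T1 3, hc, ?_⟩
  intro T hT B hB cB α β δ hα hαβ hβα hP A w hA hd
  have hTT1 : T1 ≤ T := (le_max_left _ _).trans hT
  have hT3 : 3 ≤ T := (le_max_right _ _).trans hT
  have hT0 : 0 < T := by linarith
  have hL0 : 0 < Real.log T := Real.log_pos (by linarith)
  have hηT : 0 < η * T := by positivity
  have hKT : K * T ≤ K0 * T := mul_le_mul_of_nonneg_right hKK0 hT0.le
  have hK0T : 0 < K0 * T := by positivity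
  have hBc : 0 < (B.card : ℝ) := lt_of_lt_of_le (by positivity) cB
  obtain ⟨b0, hb0⟩ : B.Nonempty := Finset.card_pos.1 (by exact_mod_cast hBc)
  have hKT0 : 0 < K * T := lt_of_lt_of_le hηT ((hB b0 hb0).1.trans (hB b0 hb0).2.1)
  have hKpos : 0 < K := by
    by_contra hcon
    push Not at hcon
    have : K * T ≤ 0 := mul_nonpos_of_nonpos_of_nonneg hcon hT0.le
    linarith
  have hβ : 0 < β := by
    by_contra hcon
    push Not at hcon
    have : K * β ≤ 0 := mul_nonpos_of_nonneg_of_nonpos hKpos.le hcon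
    linarith
  have hk0 : (k : ℝ) ≠ 0 := by
    have : (1 : ℝ) ≤ k := by exact_mod_cast hk
    linarith
  obtain ⟨f, hf⟩ : ∃ f : ℝ → ℝ, f = fun γ => ((β * γ ^ k + δ) / α) ^ (1 / (k : ℝ)) := ⟨_, rfl⟩
  have hfk : ∀ γ ∈ B, 0 ≤ f γ ∧ f γ ^ k = (β * γ ^ k + δ) / α := by
    intro γ hγ
    have h1 : 0 ≤ (β * γ ^ k + δ) / α := by
      apply div_nonneg _ hα.le
      exact le_trans (by positivity) (hP γ hγ).1
    rw [hf]
    refine ⟨Real.rpow_nonneg h1 _, ?_⟩
    dsimp only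
    rw [← Real.rpow_natCast, ← Real.rpow_mul h1, one_div, inv_mul_cancel₀ hk0, Real.rpow_one]
  have hfl : ∀ γ ∈ B, η * T ≤ f γ := by
    intro γ hγ
    obtain ⟨h1, h2⟩ := hfk γ hγ
    have h3 : (η * T) ^ k ≤ f γ ^ k := by
      rw [h2, le_div_iff₀ hα]
      linarith [(hP γ hγ).1]
    exact le_of_pow_le_pow_left₀ (by omega) h1 h3
  have hfu : ∀ γ ∈ B, f γ ≤ K0 * T := by
    intro γ hγ
    obtain ⟨h1, h2⟩ := hfk γ hγ
    have h3 : f γ ^ k ≤ (K * T) ^ k := by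
      rw [h2, div_le_iff₀ hα]
      linarith [(hP γ hγ).2]
    exact (le_of_pow_le_pow_left₀ (by omega) hKT0.le h3).trans hKT
  have hsum : ∀ u v : ℝ, η * T ≤ u → u ≤ K0 * T → η * T ≤ v → v ≤ K0 * T →
      (k : ℝ) * (η * T) ^ (k - 1) ≤ ∑ i ∈ Finset.range k, u ^ i * v ^ (k - 1 - i) ∧
      ∑ i ∈ Finset.range k, u ^ i * v ^ (k - 1 - i) ≤ (k : ℝ) * (K0 * T) ^ (k - 1) := by
    intro u v hu1 hu2 hv1 hv2
    have hu0 : 0 < u := hηT.trans_le hu1
    have hv0 : 0 < v := hηT.trans_le hv1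
    constructor
    · calc (k : ℝ) * (η * T) ^ (k - 1) = ∑ _i ∈ Finset.range k, (η * T) ^ (k - 1) := by
            rw [Finset.sum_const, Finset.card_range, nsmul_eq_mul]
        _ ≤ _ := by
            apply Finset.sum_le_sum
            intro i hi
            rw [Finset.mem_range] at hi
            have h1 : (η * T) ^ (k - 1) = (η * T) ^ i * (η * T) ^ (k - 1 - i) := by
              rw [← pow_add]; congr 1; omega
            rw [h1]
            exact mul_le_mul (pow_le_pow_left₀ hηT.le hu1 _) (pow_le_pow_left₀ hηT.le hv1 _)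
              (by positivity) (by positivity)
    · calc ∑ i ∈ Finset.range k, u ^ i * v ^ (k - 1 - i) ≤
          ∑ _i ∈ Finset.range k, (K0 * T) ^ (k - 1) := by
            apply Finset.sum_le_sum
            intro i hi
            rw [Finset.mem_range] at hi
            have h1 : (K0 * T) ^ (k - 1) = (K0 * T) ^ i * (K0 * T) ^ (k - 1 - i) := by
              rw [← pow_add]; congr 1; omega
            rw [h1]
            exact mul_le_mul (pow_le_pow_left₀ hu0.le hu2 _) (pow_le_pow_left₀ hv0.le hv2 _)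
              (by positivity) (by positivity)
        _ = (k : ℝ) * (K0 * T) ^ (k - 1) := by
            rw [Finset.sum_const, Finset.card_range, nsmul_eq_mul]
  have hlip : ∀ b ∈ B, ∀ b' ∈ B, |b - b'| ≤ K2 * |f b - f b'| ∧ |f b - f b'| ≤ K2 * |b - b'| := by
    intro b hb b' hb'
    obtain ⟨Sb, hSb⟩ : ∃ S : ℝ, S = ∑ i ∈ Finset.range k, b ^ i * b' ^ (k - 1 - i) := ⟨_, rfl⟩
    obtain ⟨Sf, hSf⟩ : ∃ S : ℝ, S = ∑ i ∈ Finset.range k, f b ^ i * f b' ^ (k - 1 - i) := ⟨_, rfl⟩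
    have h1 := hsum b b' (hB b hb).1 ((hB b hb).2.1.trans hKT) (hB b' hb').1
      ((hB b' hb').2.1.trans hKT)
    have h2 := hsum (f b) (f b') (hfl b hb) (hfu b hb) (hfl b' hb') (hfu b' hb')
    rw [← hSb] at h1
    rw [← hSf] at h2
    have e1 : Sb * (b - b') = b ^ k - b' ^ k := by
      rw [hSb]; exact (Commute.all b b').geom_sum₂_mul k
    have e2 : Sf * (f b - f b') = f b ^ k - f b' ^ k := by
      rw [hSf]; exact (Commute.all (f b) (f b')).geom_sum₂_mul k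
    have e3 : Sf * (f b - f b') = β / α * (Sb * (b - b')) := by
      rw [e1, e2, (hfk b hb).2, (hfk b' hb').2]
      field_simp
      ring
    have hm : 0 < (k : ℝ) * (η * T) ^ (k - 1) := by
      have : (1 : ℝ) ≤ k := by exact_mod_cast hk
      positivity
    have hSb0 : 0 < Sb := hm.trans_le h1.1
    have hSf0 : 0 < Sf := hm.trans_le h2.1
    have e4 : Sf * |f b - f b'| = β / α * (Sb * |b - b'|) := by
      have := congrArg (fun t => |t|) e3
      simp only [abs_mul] at this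
      rwa [abs_of_pos hSf0, abs_of_pos hSb0, abs_of_pos (by positivity : 0 < β / α)] at this
    have hr1 : β / α ≤ K0 := by
      rw [div_le_iff₀ hα]
      exact hβα.trans (mul_le_mul_of_nonneg_right hKK0 hα.le)
    have hr2 : 1 ≤ K0 * (β / α) := by
      rw [← mul_div_assoc, le_div_iff₀ hα, one_mul]
      exact hαβ.trans (mul_le_mul_of_nonneg_right hKK0 hβ.le)
    have hq : (k : ℝ) * (K0 * T) ^ (k - 1) = (K0 / η) ^ (k - 1) * ((k : ℝ) * (η * T) ^ (k - 1)) := by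
      have : K0 * T = (K0 / η) * (η * T) := by field_simp
      rw [this, mul_pow]; ring
    have hQ : 0 ≤ (K0 / η) ^ (k - 1) := by positivity
    obtain ⟨m, hmd⟩ : ∃ m : ℝ, m = (k : ℝ) * (η * T) ^ (k - 1) := ⟨_, rfl⟩
    obtain ⟨Q, hQd⟩ : ∃ Q : ℝ, Q = (K0 / η) ^ (k - 1) := ⟨_, rfl⟩
    rw [hq, ← hmd, ← hQd] at h1 h2
    rw [← hmd] at hm
    rw [← hQd] at hQ hK2b
    constructor
    · have h3 : m * |b - b'| ≤ m * (K0 * Q * |f b - f b'|) := by
        calc m * |b - b'| ≤ Sb * |b - b'| := mul_le_mul_of_nonneg_right h1.1 (abs_nonneg _)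
          _ ≤ (K0 * (β / α)) * (Sb * |b - b'|) :=
              le_mul_of_one_le_left (by positivity) hr2
          _ = K0 * (β / α * (Sb * |b - b'|)) := by ring
          _ = K0 * (Sf * |f b - f b'|) := by rw [e4]
          _ ≤ K0 * ((Q * m) * |f b - f b'|) := by
              apply mul_le_mul_of_nonneg_left _ hK00.le
              exact mul_le_mul_of_nonneg_right h2.2 (abs_nonneg _)
          _ = _ := by ring
      exact (le_of_mul_le_mul_left h3 hm).trans (mul_le_mul_of_nonneg_right hK2b (abs_nonneg _))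
    · have h3 : m * |f b - f b'| ≤ m * (K0 * Q * |b - b'|) := by
        calc m * |f b - f b'| ≤ Sf * |f b - f b'| := mul_le_mul_of_nonneg_right h2.1 (abs_nonneg _)
          _ = β / α * (Sb * |b - b'|) := e4
          _ ≤ K0 * ((Q * m) * |b - b'|) := by
              apply mul_le_mul hr1 _ (by positivity) hK00.le
              exact mul_le_mul_of_nonneg_right h1.2 (abs_nonneg _)
          _ = _ := by ring
      exact (le_of_mul_le_mul_left h3 hm).trans (mul_le_mul_of_nonneg_right hK2b (abs_nonneg _))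
  have hK2T : K0 * T ≤ K2 * T := mul_le_mul_of_nonneg_right hK2a hT0.le
  have h1 := h T hTT1 B (fun γ hγ => ⟨hηT.trans_le (hB γ hγ).1,
      ((hB γ hγ).2.1.trans hKT).trans hK2T, (hB γ hγ).2.2⟩) cB f
    (fun γ hγ => by
      rw [abs_of_nonneg (hfk γ hγ).1]
      exact (hfu γ hγ).trans hK2T) hlip ℝ A (fun a => a) w
    (fun a ha => ((hA a ha).trans hKT).trans hK2T) hd
  refine le_trans ?_ h1
  have hfin : ({a : ℝ | a ∈ A ∧ ({γ : ℝ | γ ∈ B ∧ Far (c / Real.log T) (f γ + a)}.ncard : ℝ) <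
      c * B.card}).Finite := A.finite_toSet.subset (fun a ha => ha.1)
  have hsub : {a : ℝ | a ∈ A ∧ ({γ : ℝ | γ ∈ B ∧
      ∀ γ' : ℝ, a ≤ γ' → riemannZeta (1 / 2 + I * (γ' : ℂ)) = 0 →
        α * (γ' - a) ^ k ≠ β * γ ^ k + δ}.ncard : ℝ) < c * B.card} ⊆
      {a : ℝ | a ∈ A ∧ ({γ : ℝ | γ ∈ B ∧ Far (c / Real.log T) (f γ + a)}.ncard : ℝ) <
      c * B.card} := by
    intro a ha
    refine ⟨ha.1, lt_of_le_of_lt ?_ ha.2⟩
    have hs : {γ : ℝ | γ ∈ B ∧ Far (c / Real.log T) (f γ + a)} ⊆ {γ : ℝ | γ ∈ B ∧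
      ∀ γ' : ℝ, a ≤ γ' → riemannZeta (1 / 2 + I * (γ' : ℂ)) = 0 →
        α * (γ' - a) ^ k ≠ β * γ ^ k + δ} := by
      intro γ hγ
      obtain ⟨hγB, hF⟩ := hγ
      refine ⟨hγB, ?_⟩
      intro γ' hγ' hz he
      have h2 : (γ' - a) ^ k = f γ ^ k := by
        rw [(hfk γ hγB).2, eq_div_iff hα.ne', ← he]; ring
      have h3 : γ' - a = f γ :=
        (pow_left_inj₀ (by linarith) (hfk γ hγB).1 (by omega)).1 h2
      have h4 := hF (1 / 2 + I * (γ' : ℂ)) hz
      have h5 : γ' = f γ + a := by linarith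
      rw [← h5, sub_self, norm_zero] at h4
      have h6 : 0 < c / Real.log T := by positivity
      linarith
    exact_mod_cast Set.ncard_le_ncard hs (B.finite_toSet.subset (fun γ hγ => hγ.1))
  exact_mod_cast Set.ncard_le_ncard hsub hfin

/-- Relations `γ' = f γ + g a` between ordinates of zeros, `f` an arbitrary bi-Lipschitz function
on the scale `T`. -/
theorem result (K η : ℝ) (hη : 0 < η) : ∃ c T₁ : ℝ, 0 < c ∧ ∀ T : ℝ, T₁ ≤ T → ∀ B : Finset ℝ,
    (∀ γ ∈ B, 0 < γ ∧ γ ≤ K * T ∧ riemannZeta (1 / 2 + I * (γ : ℂ)) = 0) →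
    η * T * Real.log T ≤ B.card →
    ∀ f : ℝ → ℝ, (∀ γ ∈ B, |f γ| ≤ K * T) →
    (∀ γ ∈ B, ∀ γ' ∈ B, |γ - γ'| ≤ K * |f γ - f γ'| ∧ |f γ - f γ'| ≤ K * |γ - γ'|) →
    ∀ (ι : Type) (A : Finset ι) (g : ι → ℝ) (w : ℝ), (∀ a ∈ A, |g a| ≤ K * T) →
    (∀ y : ℝ, ({a : ι | a ∈ A ∧ y ≤ g a ∧ g a < y + 1}.ncard : ℝ) ≤ w) →
    ({a : ι | a ∈ A ∧ ({γ : ℝ | γ ∈ B ∧ ∀ ρ : ℂ, riemannZeta ρ = 0 →
        c / Real.log T ≤ ‖ρ - (1 / 2 + I * ((f γ + g a : ℝ) : ℂ))‖}.ncard : ℝ) <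
      c * B.card}.ncard : ℝ) ≤ w * T ^ (499 / 500 : ℝ) :=
  Pool.Agent.TH99.AR.exc' K η hη

end Pool.Agent.Results.MP_ec260d_nt.AlgebraicRelations
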