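import Pool.Agent.TH801.LG.Fin4

/-! Separable relations `f_1 (x_1) + … + f_n (x_n) = y` between ordinates of zeros of zeta, with no
hypothesis on the zeros.  Call a function `f` of class `C²` on `(0, ∞)` regular if
`|f' T| ≤ Λ |f' x|` and `T |f'' x| ≤ Λ |f' T|` for `x` in `[T / 2 ^ r, T]`.  Let `A_k` be arbitrary
sets of at least `η T log T` ordinates in `(T / 2 ^ r, T]`, let the `f_k` be regular with derivatives
`c_k` at `T`, let `b = |c_j|` be the second largest `|c_k|` (the largest is `|c_i|`) and let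
`0 < s ≤ b`.  Let `W` be a set of `m` indices divided into at most `M` classes such that for
different `p`, `q` in the same class `f_p - f_q` is regular with derivative at `T` at most `s` and at
least `K b / (T log T)` in modulus.  Then, uniformly in the functions and in the target `y`, the
number of tuples `x` with `|∑ f_k (x_k) - y| ≤ s / log T` is at most the trivial bound
`∏ |A_k| / (T log T)` times `K (s / (∑_{k ≠ i} c_k ^ 2) ^ (1/2) + exp (M - m / K))`. -/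

set_option autoImplicit false

namespace Pool.Agent.Results.MP_ec260d_nt.SeparableRelations

open Finset

theorem result (η Λ : ℝ) (r : ℕ) (hη : 0 < η) (hΛ : 1 ≤ Λ) : ∃ K T₀ : ℝ, 0 < K ∧
    ∀ T : ℝ, T₀ ≤ T → ∀ (n : ℕ) (f : Fin n → ℝ → ℝ) (c : Fin n → ℝ) (A : Fin n → Finset ℝ),
      (∀ k, ContDiffOn ℝ 2 (f k) (Set.Ioi 0)) → (∀ k, c k = deriv (f k) T) →
      (∀ k, ∀ x : ℝ, T / 2 ^ r ≤ x → x ≤ T → |c k| ≤ Λ * |deriv (f k) x| ∧
        T * |deriv (deriv (f k)) x| ≤ Λ * |c k|) →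
      (∀ k, ∀ γ ∈ A k, T / 2 ^ r < γ ∧ γ ≤ T ∧ ∃ ρ : ℂ, ρ.im = γ ∧ 0 < ρ.re ∧ ρ.re < 1 ∧
        riemannZeta ρ = 0) →
      (∀ k, η * (T * Real.log T) ≤ (A k).card) →
      ∀ i j, i ≠ j → |c j| ≤ |c i| → (∀ k, k ≠ i → |c k| ≤ |c j|) → c j ≠ 0 →
      ∀ s : ℝ, 0 < s → s ≤ |c j| → ∀ (W : Finset (Fin n)) (M : ℕ) (σ : Fin n → ℕ),
      (∀ p ∈ W, σ p < M) →
      (∀ p ∈ W, ∀ q ∈ W, p ≠ q → σ p = σ q → |c p - c q| ≤ s ∧
        K * |c j| ≤ |c p - c q| * (T * Real.log T) ∧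
        ∀ x : ℝ, T / 2 ^ r ≤ x → x ≤ T → |c p - c q| ≤ Λ * |deriv (f p) x - deriv (f q) x| ∧
          T * |deriv (deriv (f p)) x - deriv (deriv (f q)) x| ≤ Λ * |c p - c q|) → ∀ y : ℝ,
      (((Fintype.piFinset A).filter (fun x : Fin n → ℝ => |∑ k, f k (x k) - y| ≤
        s / Real.log T)).card : ℝ) ≤
      K * (s / Real.sqrt (∑ k ∈ univ.erase i, c k ^ 2) +
        Real.exp (M - W.card / K)) * (∏ k, ((A k).card : ℝ)) / (T * Real.log T) :=
  Pool.Agent.TH801.LG.main η Λ r hη hΛ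

end Pool.Agent.Results.MP_ec260d_nt.SeparableRelations
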