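import Pool.Agent.TH99.NL.Fermat

set_option autoImplicit false

/-!
# Relations between ordinates of zeros of the zeta function, solved for one ordinate

Unconditionally: a relation `γ' = Φ_γ(a)` between ordinates, where `Φ_γ(u)` is a function of two
variables at the scale `T` whose mixed derivative does not vanish (this is expressed by
differences in `γ`), fails, for all but `O(T ^ 0.55 log T)` of the ordinates `a`, for a positive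
proportion of the ordinates `γ`, even up to an error of a small multiple of the mean spacing
`1 / log T`. The constants do not depend on the functions. The theorem `smooth` is the instance of
the relations `γ' = T f (a / T, γ / T)` with a fixed function `f` of two variables with nonvanishing
`∂₂ f` and `∂₁ ∂₂ f` on a rectangle, `fermat` that of `γ' ^ k = γ ^ k + a ^ k`, and `product` that of
`x γ' = γ a`.
-/

namespace Pool.Agent.Results.MP_ec260d_nt.ThreeVariableRelations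

open Complex
open Pool.Agent.TH801.TU

/-- the multiplicative relation `x γ' = γ a` -/
theorem product (K η : ℝ) (hη : 0 < η) : ∃ c T₁ : ℝ, 0 < c ∧ ∀ T : ℝ, T₁ ≤ T → ∀ B : Finset ℝ,
    (∀ γ ∈ B, η * T ≤ γ ∧ γ ≤ K * T ∧ riemannZeta (1 / 2 + I * (γ : ℂ)) = 0) →
    η * T * Real.log T ≤ B.card →
    ∀ x : ℝ, η * T ≤ x → x ≤ K * T → ∀ (A : Finset ℝ) (w : ℝ),
    (∀ a ∈ A, η * T ≤ a ∧ a ≤ K * T) →
    (∀ y : ℝ, ({a : ℝ | a ∈ A ∧ y ≤ a ∧ a < y + 1}.ncard : ℝ) ≤ w) →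
    ({a : ℝ | a ∈ A ∧ ({γ : ℝ | γ ∈ B ∧ ∀ ρ : ℂ, riemannZeta ρ = 0 →
        c / Real.log T ≤ ‖ρ - (1 / 2 + I * ((γ * a / x : ℝ) : ℂ))‖}.ncard : ℝ) <
      c * B.card}.ncard : ℝ) ≤ w * T ^ (11 / 20 : ℝ) := by
  obtain ⟨K0, hK0⟩ : ∃ K0 : ℝ, K0 = max K 1 := ⟨_, rfl⟩
  have hK01 : 1 ≤ K0 := by rw [hK0]; exact le_max_right _ _
  have hKK0 : K ≤ K0 := by rw [hK0]; exact le_max_left _ _
  have hK00 : 0 < K0 := by linarith
  obtain ⟨η0, hη0⟩ : ∃ η0 : ℝ, η0 = min η 1 := ⟨_, rfl⟩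
  have hη00 : 0 < η0 := by rw [hη0]; exact lt_min hη one_pos
  have hη01 : η0 ≤ 1 := by rw [hη0]; exact min_le_right _ _
  have hηη0 : η0 ≤ η := by rw [hη0]; exact min_le_left _ _
  obtain ⟨K2, hK2⟩ : ∃ K2 : ℝ, K2 = K0 + 2 + 2 * K0 ^ 2 / η0 + 2 * K0 / η0 + 1 / η0 := ⟨_, rfl⟩
  obtain ⟨η2, hη2⟩ : ∃ η2 : ℝ, η2 = η0 ^ 2 / K0 := ⟨_, rfl⟩
  have q1 : 0 < 2 * K0 ^ 2 / η0 := by positivity
  have q2 : 0 < 2 * K0 / η0 := by positivity
  have q3 : 0 < 1 / η0 := by positivity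
  have hη20 : 0 < η2 := by rw [hη2]; positivity
  have hη2η : η2 ≤ η := by
    refine le_trans ?_ hηη0
    rw [hη2, div_le_iff₀ hK00]
    nlinarith
  obtain ⟨c, T1, hc, h⟩ := Pool.Agent.TH99.NL.exc2 K2 η2 hη20
  refine ⟨c, max T1 3, hc, ?_⟩
  intro T hT B hB cB x hx1 hx2 A w hA hd
  have hTT1 : T1 ≤ T := (le_max_left _ _).trans hT
  have hT3 : 3 ≤ T := (le_max_right _ _).trans hT
  have hT0 : 0 < T := by linarith
  have hL0 : 0 < Real.log T := Real.log_pos (by linarith)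
  have hη0T : 0 < η0 * T := by positivity
  have hKT : K * T ≤ K0 * T := mul_le_mul_of_nonneg_right hKK0 hT0.le
  have hx1' : η0 * T ≤ x := (mul_le_mul_of_nonneg_right hηη0 hT0.le).trans hx1
  have hx2' : x ≤ K0 * T := hx2.trans hKT
  have hx0 : 0 < x := hη0T.trans_le hx1'
  have hK0K2 : K0 ≤ K2 := by rw [hK2]; linarith
  have hBl : ∀ γ ∈ B, η0 * T ≤ γ := fun γ hγ =>
    (mul_le_mul_of_nonneg_right hηη0 hT0.le).trans (hB γ hγ).1
  have hBu : ∀ γ ∈ B, γ ≤ K0 * T := fun γ hγ => (hB γ hγ).2.1.trans hKT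
  have h1T : 1 ≤ K0 * T := by nlinarith
  -- the points `[η0 T, K0 T + 1]`
  have hu : ∀ u ∈ Set.Icc (η0 * T) (K0 * T + 1), 0 < u ∧ η0 * T ≤ u ∧ u ≤ 2 * K0 * T := by
    intro u hu
    exact ⟨hη0T.trans_le hu.1, hu.1, by linarith [hu.2]⟩
  have hF : Pool.Agent.TH99.NL.Fam K2 η2 T (η0 * T) (K0 * T + 1) B (fun γ u => γ / x * u)
      (fun γ _ => γ / x) (fun _ _ => 0) := by
    have hxi : 1 / x ≤ 1 / (η0 * T) := one_div_le_one_div_of_le hη0T hx1'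
    have hgx : ∀ γ ∈ B, 0 ≤ γ / x ∧ γ / x ≤ K0 / η0 := by
      intro γ hγ
      have h0 : 0 ≤ γ := hη0T.le.trans (hBl γ hγ)
      refine ⟨div_nonneg h0 hx0.le, ?_⟩
      rw [div_le_div_iff₀ hx0 hη00]
      calc γ * η0 ≤ (K0 * T) * η0 := mul_le_mul_of_nonneg_right (hBu γ hγ) hη00.le
        _ = K0 * (η0 * T) := by ring
        _ ≤ K0 * x := mul_le_mul_of_nonneg_left hx1' hK00.le
    refine ⟨?_, ?_, ?_, ?_, ?_, ?_, ?_, ?_, ?_, ?_, ?_, ?_⟩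
    · intro γ _ u _
      simpa using (hasDerivAt_id u).const_mul (γ / x)
    · intro γ _ u _
      exact hasDerivAt_const u _
    · intro γ _
      exact continuousOn_const
    · intro γ hγ u hu'
      obtain ⟨h1, h2, h3⟩ := hu u hu'
      have h4 : η0 / K0 ≤ γ / x := by
        rw [div_le_div_iff₀ hK00 hx0]
        calc η0 * x ≤ η0 * (K0 * T) := mul_le_mul_of_nonneg_left hx2' hη00.le
          _ = (η0 * T) * K0 := by ring
          _ ≤ γ * K0 := mul_le_mul_of_nonneg_right (hBl γ hγ) hK00.le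
      calc η2 * T = η0 / K0 * (η0 * T) := by rw [hη2]; ring
        _ ≤ γ / x * u := mul_le_mul h4 h2 hη0T.le (hgx γ hγ).1
    · intro γ hγ u hu'
      obtain ⟨h1, h2, h3⟩ := hu u hu'
      calc γ / x * u ≤ K0 / η0 * (2 * K0 * T) :=
            mul_le_mul (hgx γ hγ).2 h3 h1.le (by positivity)
        _ = (2 * K0 ^ 2 / η0) * T := by ring
        _ ≤ K2 * T := by
          apply mul_le_mul_of_nonneg_right _ hT0.le
          rw [hK2]; linarith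
    · intro γ hγ u _
      rw [abs_of_nonneg (hgx γ hγ).1]
      refine (hgx γ hγ).2.trans ?_
      have h5 : 2 * K0 / η0 = K0 / η0 + K0 / η0 := by ring
      have h6 : 0 < K0 / η0 := by positivity
      rw [hK2]; linarith
    · intro γ _ u _
      rw [abs_zero]
      have : 0 < K2 := by linarith
      positivity
    · intro b hb b' hb' u hu'
      obtain ⟨h1, h2, h3⟩ := hu u hu'
      have e : b / x * u - b' / x * u = (u / x) * (b - b') := by ring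
      simp only [e]
      rw [abs_mul, abs_of_pos (div_pos h1 hx0), ← mul_assoc]
      apply le_mul_of_one_le_left (abs_nonneg _)
      rw [← mul_div_assoc, le_div_iff₀ hx0, one_mul]
      calc x ≤ K0 * T := hx2'
        _ = (K0 / η0) * (η0 * T) := by field_simp
        _ ≤ K2 * u := by
          apply mul_le_mul _ h2 hη0T.le (by linarith)
          have h5 : 2 * K0 / η0 = K0 / η0 + K0 / η0 := by ring
          have h6 : 0 < K0 / η0 := by positivity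
          rw [hK2]; linarith
    · intro b hb b' hb' u hu'
      obtain ⟨h1, h2, h3⟩ := hu u hu'
      have e : b / x * u - b' / x * u = (u / x) * (b - b') := by ring
      simp only [e]
      rw [abs_mul, abs_of_pos (div_pos h1 hx0)]
      apply mul_le_mul_of_nonneg_right _ (abs_nonneg _)
      rw [div_le_iff₀ hx0]
      calc u ≤ 2 * K0 * T := h3
        _ = (2 * K0 / η0) * (η0 * T) := by field_simp
        _ ≤ K2 * x := by
          apply mul_le_mul _ hx1' hη0T.le (by linarith)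
          rw [hK2]; linarith
    · intro b hb b' hb' u hu'
      have e : b / x - b' / x = (b - b') / x := by ring
      simp only [e]
      rw [abs_div, abs_of_pos hx0, mul_div_assoc', le_div_iff₀ hx0]
      calc |b - b'| * x ≤ |b - b'| * (K2 * T) := by
            apply mul_le_mul_of_nonneg_left _ (abs_nonneg _)
            exact hx2'.trans (mul_le_mul_of_nonneg_right hK0K2 hT0.le)
        _ = K2 * T * |b - b'| := by ring
    · intro b hb b' hb' u hu'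
      have e : b / x - b' / x = (b - b') / x := by ring
      simp only [e]
      rw [abs_div, abs_of_pos hx0, div_le_iff₀ hx0]
      calc |b - b'| = (1 / η0) / T * |b - b'| * (η0 * T) := by field_simp
        _ ≤ K2 / T * |b - b'| * x := by
          have h7 : 1 / η0 ≤ K2 := by rw [hK2]; linarith
          have h8 : 0 ≤ |b - b'| := abs_nonneg _
          have h9 : 0 < K2 := by linarith
          gcongr
    · intro b _ b' _ u _
      simp only [sub_self, abs_zero]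
      have : 0 < K2 := by linarith
      positivity
  have h1 := h T hTT1 B (fun γ hγ => ⟨hη0T.trans_le (hBl γ hγ),
      (hBu γ hγ).trans (mul_le_mul_of_nonneg_right hK0K2 hT0.le), (hB γ hγ).2.2⟩)
    (le_trans (by gcongr) cB) (η0 * T) (K0 * T + 1) _ _ _ (by
      have h2 : (K0 + 1) * T ≤ K2 * T := by
        apply mul_le_mul_of_nonneg_right _ hT0.le
        rw [hK2]; linarith
      linarith) hF ℝ A (fun a => a) w
    (fun a ha => ⟨(mul_le_mul_of_nonneg_right hηη0 hT0.le).trans (hA a ha).1, by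
      have := (hA a ha).2
      linarith⟩) hd
  have e : ∀ γ a : ℝ, γ * a / x = γ / x * a := by intro γ a; ring
  simp only [e]
  exact h1

/-- the relation `γ' ^ k = γ ^ k + a ^ k` -/
theorem fermat (k : ℕ) (hk : 2 ≤ k) (K η : ℝ) (hη : 0 < η) : ∃ c T₁ : ℝ, 0 < c ∧
    ∀ T : ℝ, T₁ ≤ T → ∀ B : Finset ℝ,
    (∀ γ ∈ B, η * T ≤ γ ∧ γ ≤ K * T ∧ riemannZeta (1 / 2 + I * (γ : ℂ)) = 0) →
    η * T * Real.log T ≤ B.card →
    ∀ (A : Finset ℝ) (w : ℝ), (∀ a ∈ A, η * T ≤ a ∧ a ≤ K * T) →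
    (∀ y : ℝ, ({a : ℝ | a ∈ A ∧ y ≤ a ∧ a < y + 1}.ncard : ℝ) ≤ w) →
    ({a : ℝ | a ∈ A ∧ ({γ : ℝ | γ ∈ B ∧ ∀ γ' : ℝ, 0 < γ' →
        riemannZeta (1 / 2 + I * (γ' : ℂ)) = 0 → γ' ^ k ≠ γ ^ k + a ^ k}.ncard : ℝ) <
      c * B.card}.ncard : ℝ) ≤ w * T ^ (11 / 20 : ℝ) :=
  Pool.Agent.TH99.NL.fermat k hk K η hη

/-- the relation `γ' = T f (a / T, γ / T)` for a fixed function `f` of two variables -/
theorem smooth (a1 a2 b1 b2 : ℝ) (hb1 : 0 < b1) (f fu fuu fv fuv fuuv : ℝ → ℝ → ℝ)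
    (du : ∀ u ∈ Set.Icc a1 a2, ∀ v ∈ Set.Icc b1 b2, HasDerivAt (fun u => f u v) (fu u v) u ∧
      HasDerivAt (fun u => fu u v) (fuu u v) u)
    (dv : ∀ u ∈ Set.Icc a1 a2, ∀ v ∈ Set.Icc b1 b2, HasDerivAt (fun v => f u v) (fv u v) v ∧
      HasDerivAt (fun v => fu u v) (fuv u v) v ∧ HasDerivAt (fun v => fuu u v) (fuuv u v) v)
    (c0 : ContinuousOn (fun z : ℝ × ℝ => f z.1 z.2) (Set.Icc a1 a2 ×ˢ Set.Icc b1 b2))
    (cu : ContinuousOn (fun z : ℝ × ℝ => fu z.1 z.2) (Set.Icc a1 a2 ×ˢ Set.Icc b1 b2))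
    (cuu : ContinuousOn (fun z : ℝ × ℝ => fuu z.1 z.2) (Set.Icc a1 a2 ×ˢ Set.Icc b1 b2))
    (cv : ContinuousOn (fun z : ℝ × ℝ => fv z.1 z.2) (Set.Icc a1 a2 ×ˢ Set.Icc b1 b2))
    (cuv : ContinuousOn (fun z : ℝ × ℝ => fuv z.1 z.2) (Set.Icc a1 a2 ×ˢ Set.Icc b1 b2))
    (cuuv : ContinuousOn (fun z : ℝ × ℝ => fuuv z.1 z.2) (Set.Icc a1 a2 ×ˢ Set.Icc b1 b2))
    (h0 : ∀ u ∈ Set.Icc a1 a2, ∀ v ∈ Set.Icc b1 b2, 0 < f u v ∧ fv u v ≠ 0 ∧ fuv u v ≠ 0)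
    (η : ℝ) (hη : 0 < η) : ∃ c T₁ : ℝ, 0 < c ∧ ∀ T : ℝ, T₁ ≤ T → ∀ B : Finset ℝ,
    (∀ γ ∈ B, b1 * T ≤ γ ∧ γ ≤ b2 * T ∧ riemannZeta (1 / 2 + I * (γ : ℂ)) = 0) →
    η * T * Real.log T ≤ B.card →
    ∀ (ι : Type) (A : Finset ι) (g : ι → ℝ) (w : ℝ),
    (∀ a ∈ A, a1 * T ≤ g a ∧ g a + 1 ≤ a2 * T) →
    (∀ y : ℝ, ({a : ι | a ∈ A ∧ y ≤ g a ∧ g a < y + 1}.ncard : ℝ) ≤ w) →
    ({a : ι | a ∈ A ∧ ({γ : ℝ | γ ∈ B ∧ ∀ ρ : ℂ, riemannZeta ρ = 0 →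
        c / Real.log T ≤ ‖ρ - (1 / 2 + I * ((T * f (g a / T) (γ / T) : ℝ) : ℂ))‖}.ncard : ℝ) <
      c * B.card}.ncard : ℝ) ≤ w * T ^ (11 / 20 : ℝ) :=
  Pool.Agent.TH99.NL.smooth a1 a2 b1 b2 hb1 f fu fuu fv fuv fuuv du dv c0 cu cuu cv cuv cuuv h0
    η hη

/-- Relations `γ' = Φ_γ(u)` between ordinates of zeros, for families of functions on the scale
`T` with a nonvanishing mixed derivative. -/
theorem result (K η : ℝ) (hη : 0 < η) : ∃ c T₁ : ℝ, 0 < c ∧ ∀ T : ℝ, T₁ ≤ T → ∀ B : Finset ℝ,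
    (∀ γ ∈ B, 0 < γ ∧ γ ≤ K * T ∧ riemannZeta (1 / 2 + I * (γ : ℂ)) = 0) →
    η * T * Real.log T ≤ B.card →
    ∀ (P Q : ℝ) (Φ Φ₁ Φ₂ : ℝ → ℝ → ℝ), Q - P ≤ K * T →
    (∀ γ ∈ B, ∀ u ∈ Set.Icc P Q, HasDerivAt (Φ γ) (Φ₁ γ u) u ∧ HasDerivAt (Φ₁ γ) (Φ₂ γ u) u) →
    (∀ γ ∈ B, ContinuousOn (Φ₂ γ) (Set.Icc P Q)) →
    (∀ γ ∈ B, ∀ u ∈ Set.Icc P Q, η * T ≤ Φ γ u ∧ Φ γ u ≤ K * T ∧ |Φ₁ γ u| ≤ K ∧
      |Φ₂ γ u| ≤ K / T) →
    (∀ γ ∈ B, ∀ γ' ∈ B, ∀ u ∈ Set.Icc P Q,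
      |γ - γ'| ≤ K * |Φ γ u - Φ γ' u| ∧ |Φ γ u - Φ γ' u| ≤ K * |γ - γ'| ∧
      |γ - γ'| ≤ K * T * |Φ₁ γ u - Φ₁ γ' u| ∧ |Φ₁ γ u - Φ₁ γ' u| ≤ K / T * |γ - γ'| ∧
      |Φ₂ γ u - Φ₂ γ' u| ≤ K / T ^ 2 * |γ - γ'|) →
    ∀ (ι : Type) (A : Finset ι) (g : ι → ℝ) (w : ℝ), (∀ a ∈ A, P ≤ g a ∧ g a + 1 ≤ Q) →
    (∀ y : ℝ, ({a : ι | a ∈ A ∧ y ≤ g a ∧ g a < y + 1}.ncard : ℝ) ≤ w) →
    ({a : ι | a ∈ A ∧ ({γ : ℝ | γ ∈ B ∧ ∀ ρ : ℂ, riemannZeta ρ = 0 →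
        c / Real.log T ≤ ‖ρ - (1 / 2 + I * ((Φ γ (g a) : ℝ) : ℂ))‖}.ncard : ℝ) <
      c * B.card}.ncard : ℝ) ≤ w * T ^ (11 / 20 : ℝ) := by
  obtain ⟨c, T₁, hc, h⟩ := Pool.Agent.TH99.NL.exc2 K η hη
  refine ⟨c, T₁, hc, ?_⟩
  intro T hT B hB cB P Q Φ Φ₁ Φ₂ hPQ hd hc2 hb hl ι A g w hA hw
  exact h T hT B hB cB P Q Φ Φ₁ Φ₂ hPQ
    ⟨fun γ hγ u hu => (hd γ hγ u hu).1, fun γ hγ u hu => (hd γ hγ u hu).2, hc2,
      fun γ hγ u hu => (hb γ hγ u hu).1, fun γ hγ u hu => (hb γ hγ u hu).2.1,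
      fun γ hγ u hu => (hb γ hγ u hu).2.2.1, fun γ hγ u hu => (hb γ hγ u hu).2.2.2,
      fun γ hγ γ' hγ' u hu => (hl γ hγ γ' hγ' u hu).1,
      fun γ hγ γ' hγ' u hu => (hl γ hγ γ' hγ' u hu).2.1,
      fun γ hγ γ' hγ' u hu => (hl γ hγ γ' hγ' u hu).2.2.1,
      fun γ hγ γ' hγ' u hu => (hl γ hγ γ' hγ' u hu).2.2.2.1,
      fun γ hγ γ' hγ' u hu => (hl γ hγ γ' hγ' u hu).2.2.2.2⟩ ι A g w hA hw

end Pool.Agent.Results.MP_ec260d_nt.ThreeVariableRelations
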